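import Pool.Agent.Helper23.PL.Defs

/-!
# PL-5d: walk lemmas for `Rch` and `Byp`
-/

set_option autoImplicit false

open Set
open Pool.Agent.Helper83.OP Pool.Agent.Helper93.HH Pool.Agent.Helper23.PL

namespace Pool.Agent.Helper63.PL

section

variable {V P Q : Type} [Finite V] [Finite P] [Finite Q] {D : HD V P Q} {k k1 k2 : ℕ}

omit [Finite V] [Finite P] [Finite Q] in
private theorem cw_reverse {u v : V} (W : D.G.Walk u v) : cw D W.reverse = cw D W := by
  unfold cw
  rw [SimpleGraph.Walk.length_reverse, SimpleGraph.Walk.support_reverse, List.map_reverse,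
    List.sum_reverse]

omit [Finite V] [Finite P] [Finite Q] in
open Classical in
private theorem cw_append_le {u v w : V} (W : D.G.Walk u v) (W' : D.G.Walk v w) :
    cw D (W.append W') ≤ cw D W + cw D W' := by
  unfold cw
  rw [SimpleGraph.Walk.length_append, SimpleGraph.Walk.support_append, List.map_append,
    List.sum_append]
  have h : (W'.support.map fun z => if z ∈ D.U then deg D.G z else 0).sum
      = (if v ∈ D.U then deg D.G v else 0)
        + (W'.support.tail.map fun z => if z ∈ D.U then deg D.G z else 0).sum := by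
    conv_lhs => rw [← SimpleGraph.Walk.cons_tail_support W']
    rw [List.map_cons, List.sum_cons]
  rw [h]
  omega

omit [Finite V] [Finite P] [Finite Q] in
open Classical in
private theorem cw_dropLast {u a : V} {W : D.G.Walk u a} (hW : ¬ W.Nil) :
    cw D W = cw D W.dropLast + 1 + (if a ∈ D.U then deg D.G a else 0) := by
  unfold cw
  have h1 := SimpleGraph.Walk.support_dropLast_concat hW
  have h2 := SimpleGraph.Walk.length_dropLast_add_one hW
  rw [← h1, ← h2]
  simp only [List.map_append, List.sum_append, List.map_cons, List.map_nil, List.sum_cons,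
    List.sum_nil]
  omega

omit [Finite V] [Finite P] [Finite Q] in
open Classical in
private theorem cw_noU {u v : V} {W : D.G.Walk u v} (h : ∀ z ∈ W.support, z ∉ D.U) :
    cw D W = W.length := by
  unfold cw
  have : (W.support.map fun z => if z ∈ D.U then deg D.G z else 0).sum = 0 := by
    rw [List.sum_eq_zero_iff]
    intro n hn
    rw [List.mem_map] at hn
    obtain ⟨z, hz, rfl⟩ := hn
    exact if_neg (h z hz)
  rw [this]
  rfl

omit [Finite V] [Finite P] [Finite Q] in
/-- **PL-5d.** `Rch` and `Byp`. -/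
theorem Rch.mono {F F' : Set (Sym2 V)} {t t' : ℕ} {u v : V} (h : Rch D F t u v) (hF : F' ⊆ F)
    (ht : t ≤ t') : Rch D F' t' u v := by
  obtain ⟨W, h1, h2⟩ := h
  exact ⟨W, fun f hf hf' => h1 f hf (hF hf'), h2.trans ht⟩

omit [Finite V] [Finite P] [Finite Q] in
theorem Rch.symm {F : Set (Sym2 V)} {t : ℕ} {u v : V} (h : Rch D F t u v) : Rch D F t v u := by
  obtain ⟨W, h1, h2⟩ := h
  refine ⟨W.reverse, fun f hf => h1 f ?_, by rwa [cw_reverse]⟩
  rwa [SimpleGraph.Walk.edges_reverse, List.mem_reverse] at hf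

omit [Finite V] [Finite P] [Finite Q] in
theorem Rch.trans {F : Set (Sym2 V)} {t t' : ℕ} {u v w : V} (h : Rch D F t u v)
    (h' : Rch D F t' v w) : Rch D F (t + t') u w := by
  obtain ⟨W, h1, h2⟩ := h
  obtain ⟨W', h1', h2'⟩ := h'
  refine ⟨W.append W', fun f hf => ?_, (cw_append_le W W').trans (Nat.add_le_add h2 h2')⟩
  rw [SimpleGraph.Walk.edges_append, List.mem_append] at hf
  rcases hf with hf | hf
  · exact h1 f hf
  · exact h1' f hf

omit [Finite V] [Finite P] [Finite Q] in
/-- an edge at two different vertices of a pin inside `N` is not there -/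
private theorem not_pin_edge (hD : D.Ok) (p : P) {a b : V} (ha : a ∈ D.VN) (hb : b ∈ D.VN)
    (hab : a ≠ b) : s(a, b) ∉ (D.w p).edges := by
  intro h
  have h1 := SimpleGraph.Walk.fst_mem_support_of_mem_edges _ h
  have h2 := SimpleGraph.Walk.snd_mem_support_of_mem_edges _ h
  have h3 : a = D.x p := by
    by_contra hne
    exact hD.w_N p a h1 hne ha
  have h4 : b = D.x p := by
    by_contra hne
    exact hD.w_N p b h2 hne hb
  exact hab (h3.trans h4.symm)

omit [Finite P] [Finite Q] in
/-- a walk of `N` -/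
theorem Rch.of_nr (hD : D.Ok) (p : P) {t : ℕ} {u v : V} (hu : u ∉ D.U) (h : Nr D.N t u v) :
    Rch D (Fp D p) t u v := by
  obtain ⟨W, hW⟩ := h
  have key : ∀ {u v : V} (W : D.N.Walk u v), u ∉ D.U →
      ∃ W' : D.G.Walk u v, (∀ f ∈ W'.edges, f ∉ Fp D p) ∧ (∀ z ∈ W'.support, z ∉ D.U) ∧
        W'.length = W.length := by
    intro u v W
    induction W with
    | nil =>
      intro hu
      refine ⟨SimpleGraph.Walk.nil, ?_, ?_, rfl⟩
      · intro f hf
        simp at hf
      · intro z hz
        rw [SimpleGraph.Walk.support_nil, List.mem_singleton] at hz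
        rwa [hz]
    | cons hadj W ih =>
      intro hu
      obtain ⟨W', h1, h2, h3⟩ := ih (hD.N_U _ _ hadj.symm)
      refine ⟨SimpleGraph.Walk.cons (hD.N_le hadj) W', ?_, ?_, ?_⟩
      · intro f hf
        rw [SimpleGraph.Walk.edges_cons, List.mem_cons] at hf
        rcases hf with rfl | hf
        · exact not_pin_edge hD p (HD.VN_of_adj hadj) (HD.VN_of_adj' hadj) hadj.ne
        · exact h1 f hf
      · intro z hz
        rw [SimpleGraph.Walk.support_cons, List.mem_cons] at hz
        rcases hz with rfl | hz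
        · exact hu
        · exact h2 z hz
      · rw [SimpleGraph.Walk.length_cons, SimpleGraph.Walk.length_cons, h3]
  obtain ⟨W', h1, h2, h3⟩ := key W hu
  exact ⟨W', h1, by rw [cw_noU h2, h3]; exact hW⟩

omit [Finite V] [Finite P] [Finite Q] in
/-- the edge between the ends of a pin is not on the pin -/
private theorem ends_not_mem (hD : D.Ok) (p : P) : s(D.x p, D.hub p) ∉ (D.w p).edges := by
  intro h
  have hlen : 2 ≤ (D.w p).length := hD.r_pos.trans (hD.w_ge p)
  have := (hD.w_path p).length_eq_one_of_mem_edges h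
  omega

omit [Finite V] [Finite P] [Finite Q] in
/-- an edge is on at most one pin -/
theorem pin_uniq (hD : D.Ok) {p q : P} {f : Sym2 V} (h : f ∈ (D.w p).edges)
    (h' : f ∈ (D.w q).edges) : p = q := by
  by_contra hne
  induction f using Sym2.ind with
  | _ a b =>
    have key : ∀ z, z ∈ (D.w p).support → z ∈ (D.w q).support →
        z = D.x p ∨ z = D.hub p := by
      intro z hz hz'
      by_contra hcon
      rw [not_or] at hcon
      exact hne (hD.w_disj p q z hz hz' hcon.1 hcon.2)
    have ha := key a (SimpleGraph.Walk.fst_mem_support_of_mem_edges _ h)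
      (SimpleGraph.Walk.fst_mem_support_of_mem_edges _ h')
    have hb := key b (SimpleGraph.Walk.snd_mem_support_of_mem_edges _ h)
      (SimpleGraph.Walk.snd_mem_support_of_mem_edges _ h')
    have hab : a ≠ b := (SimpleGraph.Walk.adj_of_mem_edges _ h).ne
    rcases ha with rfl | rfl
    · rcases hb with rfl | rfl
      · exact hab rfl
      · exact ends_not_mem hD p h
    · rcases hb with rfl | rfl
      · exact ends_not_mem hD p (by rwa [Sym2.eq_swap] at h)
      · exact hab rfl

omit [Finite V] [Finite P] [Finite Q] in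
private theorem pin_not_nil (hD : D.Ok) (q : P) : ¬ (D.w q).Nil := by
  intro h
  have h1 := hD.x_U q
  rw [h.eq] at h1
  exact h1 (hD.hub_U q)

omit [Finite V] [Finite P] [Finite Q] in
private theorem pin_dropLast (hD : D.Ok) (q : P) :
    cw D (D.w q).dropLast + 1 = (D.w q).length := by
  have h1 := pin_not_nil hD q
  have h2 : ∀ z ∈ (D.w q).dropLast.support, z ∉ D.U := by
    intro z hz
    have h3 := SimpleGraph.Walk.support_dropLast_concat h1
    have h4 := (hD.w_path q).support_nodup
    rw [← h3, List.nodup_append] at h4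
    refine hD.w_U q z ?_ ?_
    · rw [← h3]
      exact List.mem_append_left _ hz
    · exact h4.2.2 z hz _ (List.mem_singleton_self _)
  rw [cw_noU h2]
  exact SimpleGraph.Walk.length_dropLast_add_one h1

omit [Finite V] [Finite P] [Finite Q] in
/-- from the foot of a pin to its hub -/
theorem Rch.pin (hD : D.Ok) {p q : P} (h : q ≠ p) :
    Rch D (Fp D p) ((D.w q).length + deg D.G (D.hub q)) (D.x q) (D.hub q) := by
  refine ⟨D.w q, fun f hf hf' => h (pin_uniq hD hf hf'), ?_⟩
  rw [cw_dropLast (pin_not_nil hD q), if_pos (hD.hub_U q), pin_dropLast hD q]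

omit [Finite V] [Finite P] [Finite Q] in
private theorem byp_of_walk {F : Set (Sym2 V)} {t : ℕ} {u a : V} (W : D.G.Walk u a)
    (hW : ¬ W.Nil) (hF : ∀ f ∈ W.edges, f ∉ F) (hc : cw D W.dropLast ≤ t) : Byp D F t u a := by
  refine ⟨W.penultimate, ⟨(SimpleGraph.Walk.adj_penultimate hW).symm, ?_⟩, W.dropLast, ?_, hc⟩
  · refine hF _ ?_
    rw [Sym2.eq_swap]
    exact SimpleGraph.Walk.mk_penultimate_end_eq_getLast_edges hW ▸ List.getLast_mem _
  · intro f hf
    refine hF f ?_
    rw [SimpleGraph.Walk.edges_dropLast] at hf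
    exact List.mem_of_mem_dropLast hf

omit [Finite V] [Finite P] [Finite Q] in
/-- from the foot of a pin to the neighbour of the hub on the pin -/
theorem Byp.pin (hD : D.Ok) {p q : P} (h : q ≠ p) :
    Byp D (Fp D p) (D.w q).length (D.x q) (D.hub q) :=
  byp_of_walk (D.w q) (pin_not_nil hD q) (fun _ hf hf' => h (pin_uniq hD hf hf'))
    (by have := pin_dropLast hD q; omega)

omit [Finite V] [Finite P] [Finite Q] in
theorem Byp.trans {F : Set (Sym2 V)} {t t' : ℕ} {u v a : V} (h : Rch D F t u v)
    (h' : Byp D F t' v a) : Byp D F (t + t') u a := by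
  obtain ⟨y, h1, h2⟩ := h'
  exact ⟨y, h1, Rch.trans h h2⟩

omit [Finite V] [Finite P] [Finite Q] in
theorem Byp.mono {F F' : Set (Sym2 V)} {t t' : ℕ} {u a : V} (h : Byp D F t u a) (hF : F' ⊆ F)
    (ht : t ≤ t') : Byp D F' t' u a := by
  obtain ⟨y, h1, h2⟩ := h
  exact ⟨y, ⟨h1.1, fun hf => h1.2 (hF hf)⟩, Rch.mono h2 hF ht⟩

omit [Finite V] [Finite P] [Finite Q] in
/-- a walk that arrives at `a` -/
theorem Rch.byp {F : Set (Sym2 V)} {t : ℕ} {u a : V} (h : Rch D F t u a) (hne : u ≠ a) :
    Byp D F t u a := by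
  obtain ⟨W, h1, h2⟩ := h
  have hW : ¬ W.Nil := fun hn => hne hn.eq
  refine byp_of_walk W hW h1 ?_
  have := cw_dropLast hW
  omega

end

end Pool.Agent.Helper63.PL
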